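import Pool.Agent.Helper33.DZ.Stmts

set_option autoImplicit false

namespace Pool.Agent.Helper33.DZ

theorem shuf_summ (r : ℕ) (hr : 2 ≤ r) :
    Summable (fun n : ℕ => ‖(1 : ℝ) / (((n + 1 : ℕ) : ℝ) ^ r)‖) := by
  have h : Summable (fun n : ℕ => (1 : ℝ) / ((n : ℝ) ^ r)) :=
    Real.summable_one_div_nat_pow.2 (by omega)
  exact ((summable_nat_add_iff 1).2 h).norm

theorem shuf_mul (r s : ℕ) (hr : 2 ≤ r) (hs : 2 ≤ s) :
    zt r * zt s = ∑' p : ℕ × ℕ, ((1 : ℝ) / (((p.1 + 1 : ℕ) : ℝ) ^ r)) *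
      ((1 : ℝ) / (((p.2 + 1 : ℕ) : ℝ) ^ s)) :=
  tsum_mul_tsum_of_summable_norm (shuf_summ r hr) (shuf_summ s hs)

theorem shuf_swap (h1 : ST_SUMM) (r s : ℕ) (hr : 2 ≤ r) (hs : 1 ≤ s) :
    Summable (fun p : ℕ × ℕ => (1 : ℝ) /
      ((((p.1 + p.2 + 2 : ℕ) : ℝ) ^ r) * (((p.1 + 1 : ℕ) : ℝ) ^ s))) ∧
    ∑' p : ℕ × ℕ, (1 : ℝ) /
      ((((p.1 + p.2 + 2 : ℕ) : ℝ) ^ r) * (((p.1 + 1 : ℕ) : ℝ) ^ s)) = dz r s := by
  have hfun : (fun p : ℕ × ℕ => (1 : ℝ) /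
      ((((p.1 + p.2 + 2 : ℕ) : ℝ) ^ r) * (((p.1 + 1 : ℕ) : ℝ) ^ s))) =
      (fun p : ℕ × ℕ => (1 : ℝ) /
        ((((p.1 + p.2 + 2 : ℕ) : ℝ) ^ r) * (((p.2 + 1 : ℕ) : ℝ) ^ s))) ∘
          (Equiv.prodComm ℕ ℕ) := by
    funext p
    show (1 : ℝ) / ((((p.1 + p.2 + 2 : ℕ) : ℝ) ^ r) * (((p.1 + 1 : ℕ) : ℝ) ^ s)) =
      (1 : ℝ) / ((((p.2 + p.1 + 2 : ℕ) : ℝ) ^ r) * (((p.1 + 1 : ℕ) : ℝ) ^ s))
    rw [Nat.add_comm p.1 p.2]
  rw [hfun]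
  refine ⟨(Equiv.summable_iff _).2 (h1 r s hr hs), ?_⟩
  exact (Equiv.prodComm ℕ ℕ).tsum_eq (fun p : ℕ × ℕ => (1 : ℝ) /
        ((((p.1 + p.2 + 2 : ℕ) : ℝ) ^ r) * (((p.2 + 1 : ℕ) : ℝ) ^ s)))

theorem st_SHUF (h1 : ST_SUMM) (h2 : ST_PF) : ST_SHUF := by
  intro r s hr hs
  have hterm : ∀ h ∈ Finset.Icc 1 (r + s - 1),
      HasSum (fun p : ℕ × ℕ =>
        (((h - 1).choose (r - 1) : ℕ) : ℝ) * ((1 : ℝ) /
          ((((p.1 + p.2 + 2 : ℕ) : ℝ) ^ h) * (((p.2 + 1 : ℕ) : ℝ) ^ (r + s - h)))) +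
        (((h - 1).choose (s - 1) : ℕ) : ℝ) * ((1 : ℝ) /
          ((((p.1 + p.2 + 2 : ℕ) : ℝ) ^ h) * (((p.1 + 1 : ℕ) : ℝ) ^ (r + s - h)))))
        (((((h - 1).choose (r - 1) : ℕ) : ℝ) + (((h - 1).choose (s - 1) : ℕ) : ℝ)) *
          dz h (r + s - h)) := by
    intro h hh
    rw [Finset.mem_Icc] at hh
    rcases Nat.lt_or_ge h 2 with hlt | hge
    · have hh1 : h = 1 := by omega
      subst hh1
      have e1 : (1 - 1).choose (r - 1) = 0 := Nat.choose_eq_zero_of_lt (by omega)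
      have e2 : (1 - 1).choose (s - 1) = 0 := Nat.choose_eq_zero_of_lt (by omega)
      rw [e1, e2]
      have : (fun p : ℕ × ℕ =>
        ((0 : ℕ) : ℝ) * ((1 : ℝ) /
          ((((p.1 + p.2 + 2 : ℕ) : ℝ) ^ 1) * (((p.2 + 1 : ℕ) : ℝ) ^ (r + s - 1)))) +
        ((0 : ℕ) : ℝ) * ((1 : ℝ) /
          ((((p.1 + p.2 + 2 : ℕ) : ℝ) ^ 1) * (((p.1 + 1 : ℕ) : ℝ) ^ (r + s - 1))))) =
          fun _ => 0 := by
        funext p
        simp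
      rw [this]
      have e3 : (((0 : ℕ) : ℝ) + ((0 : ℕ) : ℝ)) * dz 1 (r + s - 1) = 0 := by simp
      rw [e3]
      exact hasSum_zero
    · have hs1 := h1 h (r + s - h) hge (by omega)
      obtain ⟨hs2, hs3⟩ := shuf_swap h1 h (r + s - h) hge (by omega)
      have a1 : HasSum (fun p : ℕ × ℕ => (1 : ℝ) /
          ((((p.1 + p.2 + 2 : ℕ) : ℝ) ^ h) * (((p.2 + 1 : ℕ) : ℝ) ^ (r + s - h))))
          (dz h (r + s - h)) := hs1.hasSum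
      have a2 : HasSum (fun p : ℕ × ℕ => (1 : ℝ) /
          ((((p.1 + p.2 + 2 : ℕ) : ℝ) ^ h) * (((p.1 + 1 : ℕ) : ℝ) ^ (r + s - h))))
          (dz h (r + s - h)) := by
        rw [← hs3]
        exact hs2.hasSum
      rw [add_mul]
      exact (a1.mul_left _).add (a2.mul_left _)
  have hsum := hasSum_sum hterm
  have hL : zt r * zt s = ∑ h ∈ Finset.Icc 1 (r + s - 1),
      ((((h - 1).choose (r - 1) : ℕ) : ℝ) + (((h - 1).choose (s - 1) : ℕ) : ℝ)) *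
        dz h (r + s - h) := by
    rw [shuf_mul r s hr hs, ← hsum.tsum_eq]
    apply tsum_congr
    intro p
    have hp := h2 r s (((p.1 + 1 : ℕ) : ℝ)) (((p.2 + 1 : ℕ) : ℝ)) (by omega) (by omega)
      (by positivity) (by positivity)
    rw [div_mul_div_comm, one_mul, hp]
    have hxy : ((p.1 + 1 : ℕ) : ℝ) + ((p.2 + 1 : ℕ) : ℝ) = ((p.1 + p.2 + 2 : ℕ) : ℝ) := by
      push_cast
      ring
    rw [hxy]
    apply Finset.sum_congr rfl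
    intro h _
    rw [mul_one_div, mul_one_div]
  rw [hL]
  have hIcc : Finset.Icc 1 (r + s - 1) = insert 1 (Finset.Icc 2 (r + s - 1)) := by
    ext x
    simp only [Finset.mem_Icc, Finset.mem_insert]
    omega
  rw [hIcc, Finset.sum_insert (by simp)]
  have e1 : (1 - 1).choose (r - 1) = 0 := Nat.choose_eq_zero_of_lt (by omega)
  have e2 : (1 - 1).choose (s - 1) = 0 := Nat.choose_eq_zero_of_lt (by omega)
  rw [e1, e2]
  simp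

end Pool.Agent.Helper33.DZ
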