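import Pool.Agent.Helper33.DZ.Stmts

set_option autoImplicit false

namespace Pool.Agent.Helper33.DZ

theorem stuf_summ (r : ℕ) (hr : 2 ≤ r) :
    Summable (fun n : ℕ => (1 : ℝ) / (((n + 1 : ℕ) : ℝ) ^ r)) := by
  have h : Summable (fun n : ℕ => (1 : ℝ) / ((n : ℝ) ^ r)) :=
    Real.summable_one_div_nat_pow.2 (by omega)
  exact (summable_nat_add_iff 1).2 h

theorem stuf_norm (r : ℕ) (hr : 2 ≤ r) :
    Summable (fun n : ℕ => ‖(1 : ℝ) / (((n + 1 : ℕ) : ℝ) ^ r)‖) :=
  (stuf_summ r hr).norm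

theorem stuf_mul (r s : ℕ) (hr : 2 ≤ r) (hs : 2 ≤ s) :
    zt r * zt s = ∑' p : ℕ × ℕ, ((1 : ℝ) / (((p.1 + 1 : ℕ) : ℝ) ^ r)) *
      ((1 : ℝ) / (((p.2 + 1 : ℕ) : ℝ) ^ s)) :=
  tsum_mul_tsum_of_summable_norm (stuf_norm r hr) (stuf_norm s hs)

theorem stuf_summ2 (r s : ℕ) (hr : 2 ≤ r) (hs : 2 ≤ s) :
    Summable (fun p : ℕ × ℕ => ((1 : ℝ) / (((p.1 + 1 : ℕ) : ℝ) ^ r)) *
      ((1 : ℝ) / (((p.2 + 1 : ℕ) : ℝ) ^ s))) :=
  summable_mul_of_summable_norm (stuf_norm r hr) (stuf_norm s hs)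

theorem stuf_split (F : ℕ × ℕ → ℝ) (hF : Summable F) :
    ∑' p, F p = (∑' p : ℕ × ℕ, F (p.1 + p.2 + 1, p.2)) + (∑' p : ℕ × ℕ, F (p.2, p.1 + p.2 + 1)) +
      ∑' n : ℕ, F (n, n) := by
  classical
  have h1 : ∑' p : ℕ × ℕ, F (p.1 + p.2 + 1, p.2) =
      ∑' z, Set.indicator {z : ℕ × ℕ | z.2 < z.1} F z := by
    have hinj : Function.Injective (fun p : ℕ × ℕ => (p.1 + p.2 + 1, p.2)) := by
      rintro ⟨a, b⟩ ⟨c, d⟩ h
      simp only [Prod.mk.injEq] at h ⊢
      omega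
    have hsup : Function.support (Set.indicator {z : ℕ × ℕ | z.2 < z.1} F) ⊆
        Set.range (fun p : ℕ × ℕ => (p.1 + p.2 + 1, p.2)) := by
      intro z hz
      have hz' : z ∈ {z : ℕ × ℕ | z.2 < z.1} := by
        by_contra hcon
        exact hz (Set.indicator_of_notMem hcon F)
      have hz2 : z.2 < z.1 := hz'
      refine ⟨(z.1 - z.2 - 1, z.2), ?_⟩
      apply Prod.ext
      · show z.1 - z.2 - 1 + z.2 + 1 = z.1
        omega
      · rfl
    rw [← hinj.tsum_eq hsup]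
    apply tsum_congr
    intro p
    rw [Set.indicator_of_mem]
    show p.2 < p.1 + p.2 + 1
    omega
  have h2 : ∑' p : ℕ × ℕ, F (p.2, p.1 + p.2 + 1) =
      ∑' z, Set.indicator {z : ℕ × ℕ | z.1 < z.2} F z := by
    have hinj : Function.Injective (fun p : ℕ × ℕ => (p.2, p.1 + p.2 + 1)) := by
      rintro ⟨a, b⟩ ⟨c, d⟩ h
      simp only [Prod.mk.injEq] at h ⊢
      omega
    have hsup : Function.support (Set.indicator {z : ℕ × ℕ | z.1 < z.2} F) ⊆
        Set.range (fun p : ℕ × ℕ => (p.2, p.1 + p.2 + 1)) := by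
      intro z hz
      have hz' : z ∈ {z : ℕ × ℕ | z.1 < z.2} := by
        by_contra hcon
        exact hz (Set.indicator_of_notMem hcon F)
      have hz2 : z.1 < z.2 := hz'
      refine ⟨(z.2 - z.1 - 1, z.1), ?_⟩
      apply Prod.ext
      · rfl
      · show z.2 - z.1 - 1 + z.1 + 1 = z.2
        omega
    rw [← hinj.tsum_eq hsup]
    apply tsum_congr
    intro p
    rw [Set.indicator_of_mem]
    show p.2 < p.1 + p.2 + 1
    omega
  have h3 : ∑' n : ℕ, F (n, n) = ∑' z, Set.indicator {z : ℕ × ℕ | z.1 = z.2} F z := by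
    have hinj : Function.Injective (fun n : ℕ => (n, n)) := by
      intro a b h
      simp only [Prod.mk.injEq] at h
      exact h.1
    have hsup : Function.support (Set.indicator {z : ℕ × ℕ | z.1 = z.2} F) ⊆
        Set.range (fun n : ℕ => (n, n)) := by
      intro z hz
      have hz' : z ∈ {z : ℕ × ℕ | z.1 = z.2} := by
        by_contra hcon
        exact hz (Set.indicator_of_notMem hcon F)
      have hz2 : z.1 = z.2 := hz'
      refine ⟨z.1, ?_⟩
      apply Prod.ext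
      · rfl
      · exact hz2
    rw [← hinj.tsum_eq hsup]
    apply tsum_congr
    intro n
    rw [Set.indicator_of_mem]
    exact rfl
  rw [h1, h2, h3]
  have s1 := hF.indicator {z : ℕ × ℕ | z.2 < z.1}
  have s2 := hF.indicator {z : ℕ × ℕ | z.1 < z.2}
  have s3 := hF.indicator {z : ℕ × ℕ | z.1 = z.2}
  rw [← s1.tsum_add s2, ← (s1.add s2).tsum_add s3]
  apply tsum_congr
  intro z
  rcases lt_trichotomy z.1 z.2 with h | h | h
  · rw [Set.indicator_of_notMem (show z ∉ {z : ℕ × ℕ | z.2 < z.1} from fun h' => by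
        have h'' : z.2 < z.1 := h'
        omega),
      Set.indicator_of_mem (show z ∈ {z : ℕ × ℕ | z.1 < z.2} from h),
      Set.indicator_of_notMem (show z ∉ {z : ℕ × ℕ | z.1 = z.2} from fun h' => by
        have h'' : z.1 = z.2 := h'
        omega)]
    ring
  · rw [Set.indicator_of_notMem (show z ∉ {z : ℕ × ℕ | z.2 < z.1} from fun h' => by
        have h'' : z.2 < z.1 := h'
        omega),
      Set.indicator_of_notMem (show z ∉ {z : ℕ × ℕ | z.1 < z.2} from fun h' => by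
        have h'' : z.1 < z.2 := h'
        omega),
      Set.indicator_of_mem (show z ∈ {z : ℕ × ℕ | z.1 = z.2} from h)]
    ring
  · rw [Set.indicator_of_mem (show z ∈ {z : ℕ × ℕ | z.2 < z.1} from h),
      Set.indicator_of_notMem (show z ∉ {z : ℕ × ℕ | z.1 < z.2} from fun h' => by
        have h'' : z.1 < z.2 := h'
        omega),
      Set.indicator_of_notMem (show z ∉ {z : ℕ × ℕ | z.1 = z.2} from fun h' => by
        have h'' : z.1 = z.2 := h'
        omega)]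
    ring

theorem st_STUF (_h1 : ST_SUMM) : ST_STUF := by
  intro r s hr hs
  rw [stuf_mul r s hr hs, stuf_split _ (stuf_summ2 r s hr hs)]
  unfold dz zt
  congr 1
  · congr 1
    · apply tsum_congr
      intro p
      show (1 : ℝ) / (((p.1 + p.2 + 1 + 1 : ℕ) : ℝ) ^ r) * (1 / (((p.2 + 1 : ℕ) : ℝ) ^ s)) = _
      rw [div_mul_div_comm, one_mul]
    · apply tsum_congr
      intro p
      show (1 : ℝ) / (((p.2 + 1 : ℕ) : ℝ) ^ r) * (1 / (((p.1 + p.2 + 1 + 1 : ℕ) : ℝ) ^ s)) = _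
      rw [div_mul_div_comm, one_mul, mul_comm]
  · apply tsum_congr
    intro n
    show (1 : ℝ) / (((n + 1 : ℕ) : ℝ) ^ r) * (1 / (((n + 1 : ℕ) : ℝ) ^ s)) = _
    rw [div_mul_div_comm, one_mul, pow_add]

end Pool.Agent.Helper33.DZ
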